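import Pool.Agent.H31R3.UI.Conn

set_option autoImplicit false

/-! Linear orders with a relation increasing in both coordinates, and unary predicates. -/

namespace Pool.Agent.H31R3.AT

open Set MeasureTheory
open Pool.Agent.H533R2.VO (RS RIso VC Dich)
open Pool.Agent.H533R2.VS (act)
open Pool.Agent.H566P (ar R2 a0 a1 lt ac co mk)
open Pool.Agent.H566M (LM mk1 mo X3)
open Pool.Agent.H31R3.UI (Dch dch_transfer dch_of_vc act_symm m_val)
open Pool.Agent.H31R3.SO (mk_equiv)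

/-- `x.1` is a strict linear order and `x.2.1` is increasing in both coordinates -/
structure AO (x : X3) : Prop where
  irr : ∀ m, x.1 m m = false
  tr : ∀ m n k, x.1 m n = true → x.1 n k = true → x.1 m k = true
  tot : ∀ m n, m ≠ n → x.1 m n = true ∨ x.1 n m = true
  left : ∀ m n k, x.1 m n = true → x.2.1 m k = true → x.2.1 n k = true
  right : ∀ m n k, x.1 n k = true → x.2.1 m n = true → x.2.1 m k = true

/-- the lower part -/
def Lo (x : X3) (m : ℕ) : Prop := x.2.1 m m = false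

/-- the folded order -/
def Fl (x : X3) (m n : ℕ) : Prop :=
  (Lo x m ∧ Lo x n ∧ x.1 m n = true) ∨ (¬ Lo x m ∧ ¬ Lo x n ∧ x.1 n m = true) ∨
  (Lo x m ∧ ¬ Lo x n ∧ x.2.1 m n = false) ∨ (¬ Lo x m ∧ Lo x n ∧ x.2.1 n m = true)

/-- the monotone relation -/
def Fm (x : X3) (m n : ℕ) : Prop := ∃ b a, ¬ Lo x b ∧ Lo x a ∧ x.2.1 b a = true ∧
  (m = b ∨ Fl x m b) ∧ (a = n ∨ Fl x a n)

/-- the code -/
noncomputable def cA (x : X3) : R2 := mk1 (Fl x) (Fm x)
  (fun i m => (i = 0 ∧ Lo x m) ∨ ∃ j, i = j + 1 ∧ x.2.2 j m = true)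

/-- relabelling -/
def act3 (σ : Equiv.Perm ℕ) (x : X3) : X3 :=
  (fun m n => x.1 (σ.symm m) (σ.symm n), fun m n => x.2.1 (σ.symm m) (σ.symm n),
    fun i m => x.2.2 i (σ.symm m))

variable {x : X3}

theorem ndiag (h : AO x) {m n : ℕ} (h1 : x.1 m n = true) (h2 : Lo x n) : Lo x m := by
  unfold Lo at h2 ⊢
  by_contra h3
  rw [Bool.not_eq_false] at h3
  have h4 := h.right n m n h1 (h.left m n m h1 h3)
  rw [h4] at h2
  exact Bool.noConfusion h2

theorem lowhigh (h : AO x) {m n : ℕ} (h1 : Lo x m) (h2 : ¬ Lo x n) : x.1 m n = true := by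
  have hne : m ≠ n := by
    rintro rfl
    exact h2 h1
  rcases h.tot m n hne with h3 | h3
  · exact h3
  · exact absurd (ndiag h h3 h1) h2

theorem ll (h : AO x) {m n : ℕ} (h1 : Lo x m) (h2 : Lo x n) : x.2.1 m n = false := by
  by_contra h3
  rw [Bool.not_eq_false] at h3
  by_cases hmn : m = n
  · subst hmn
    unfold Lo at h1
    rw [h1] at h3
    exact Bool.noConfusion h3
  rcases h.tot m n hmn with h4 | h4
  · have h5 := h.left m n n h4 h3
    unfold Lo at h2
    rw [h2] at h5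
    exact Bool.noConfusion h5
  · have h5 := h.right m n m h4 h3
    unfold Lo at h1
    rw [h1] at h5
    exact Bool.noConfusion h5

theorem hh (h : AO x) {m n : ℕ} (h1 : ¬ Lo x m) (h2 : ¬ Lo x n) : x.2.1 m n = true := by
  unfold Lo at h1 h2
  rw [Bool.not_eq_false] at h1 h2
  by_cases hmn : m = n
  · subst hmn
    exact h1
  rcases h.tot m n hmn with h4 | h4
  · exact h.right m m n h4 h1
  · exact h.left n m n h4 h2

theorem fl_irr (h : AO x) (m : ℕ) : ¬ Fl x m m := by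
  rintro (⟨-, -, h1⟩ | ⟨-, -, h1⟩ | ⟨h1, h2, -⟩ | ⟨h1, h2, -⟩)
  · rw [h.irr] at h1
    exact Bool.noConfusion h1
  · rw [h.irr] at h1
    exact Bool.noConfusion h1
  · exact h2 h1
  · exact h1 h2

theorem bf {b : Bool} (h1 : b = true) (h2 : b = false) : False := by
  rw [h1] at h2
  exact Bool.noConfusion h2

theorem asymm1 (h : AO x) {m n : ℕ} (h1 : x.1 m n = true) (h2 : x.1 n m = true) : False :=
  bf (h.tr _ _ _ h1 h2) (h.irr m)

theorem fl_tr (h : AO x) {m n k : ℕ} (h1 : Fl x m n) (h2 : Fl x n k) : Fl x m k := by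
  rcases h1 with ⟨a1, a2, a3⟩ | ⟨a1, a2, a3⟩ | ⟨a1, a2, a3⟩ | ⟨a1, a2, a3⟩ <;>
  rcases h2 with ⟨c1, c2, c3⟩ | ⟨c1, c2, c3⟩ | ⟨c1, c2, c3⟩ | ⟨c1, c2, c3⟩
  · exact Or.inl ⟨a1, c2, h.tr _ _ _ a3 c3⟩
  · exact absurd a2 c1
  · refine Or.inr (Or.inr (Or.inl ⟨a1, c2, ?_⟩))
    by_contra h3
    rw [Bool.not_eq_false] at h3
    exact bf (h.left _ _ _ a3 h3) c3
  · exact absurd a2 c1
  · exact absurd c1 a2
  · exact Or.inr (Or.inl ⟨a1, c2, h.tr _ _ _ c3 a3⟩)
  · exact absurd c1 a2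
  · refine Or.inr (Or.inr (Or.inr ⟨a1, c2, ?_⟩))
    exact h.right _ _ _ a3 c3
  · exact absurd c1 a2
  · refine Or.inr (Or.inr (Or.inl ⟨a1, c2, ?_⟩))
    by_contra h3
    rw [Bool.not_eq_false] at h3
    exact bf (h.right _ _ _ c3 h3) a3
  · exact absurd c1 a2
  · refine Or.inl ⟨a1, c2, ?_⟩
    have hne : m ≠ k := by
      rintro rfl
      exact bf c3 a3
    rcases h.tot m k hne with h3 | h3
    · exact h3
    · exact absurd (h.left _ _ _ h3 c3) (by rw [a3]; simp)
  · refine Or.inr (Or.inr (Or.inr ⟨a1, c2, ?_⟩))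
    exact h.left _ _ _ c3 a3
  · exact absurd a2 c1
  · refine Or.inr (Or.inl ⟨a1, c2, ?_⟩)
    have hne : m ≠ k := by
      rintro rfl
      exact bf a3 c3
    rcases h.tot k m (Ne.symm hne) with h3 | h3
    · exact h3
    · exact absurd (h.right _ _ _ h3 a3) (by rw [c3]; simp)
  · exact absurd a2 c1

theorem fl_tot (h : AO x) {m n : ℕ} (hmn : m ≠ n) : Fl x m n ∨ Fl x n m := by
  by_cases hm : Lo x m <;> by_cases hn : Lo x n
  · rcases h.tot m n hmn with h1 | h1
    · exact Or.inl (Or.inl ⟨hm, hn, h1⟩)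
    · exact Or.inr (Or.inl ⟨hn, hm, h1⟩)
  · cases h1 : x.2.1 m n
    · exact Or.inl (Or.inr (Or.inr (Or.inl ⟨hm, hn, h1⟩)))
    · exact Or.inr (Or.inr (Or.inr (Or.inr ⟨hn, hm, h1⟩)))
  · cases h1 : x.2.1 n m
    · exact Or.inr (Or.inr (Or.inr (Or.inl ⟨hn, hm, h1⟩)))
    · exact Or.inl (Or.inr (Or.inr (Or.inr ⟨hm, hn, h1⟩)))
  · rcases h.tot m n hmn with h1 | h1
    · exact Or.inr (Or.inr (Or.inl ⟨hn, hm, h1⟩))
    · exact Or.inl (Or.inr (Or.inl ⟨hm, hn, h1⟩))

theorem cA_lt (x : X3) (m n : ℕ) : lt (cA x) m n ↔ Fl x m n :=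
  Pool.Agent.H566P.t_ACC.1 (Fl x) (fun n m k => n = 0 ∧ Fm x m k)
    (fun i m => (i = 0 ∧ Lo x m) ∨ ∃ j, i = j + 1 ∧ x.2.2 j m = true) m n

theorem cA_ac (x : X3) (k m n : ℕ) : ac (cA x) k m n ↔ k = 0 ∧ Fm x m n :=
  Pool.Agent.H566P.t_ACC.2.1 (Fl x) (fun n m k => n = 0 ∧ Fm x m k)
    (fun i m => (i = 0 ∧ Lo x m) ∨ ∃ j, i = j + 1 ∧ x.2.2 j m = true) k m n

theorem cA_co (x : X3) (k m : ℕ) :
    co (cA x) k m ↔ (k = 0 ∧ Lo x m) ∨ ∃ j, k = j + 1 ∧ x.2.2 j m = true :=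
  Pool.Agent.H566P.t_ACC.2.2.1 (Fl x) (fun n m k => n = 0 ∧ Fm x m k)
    (fun i m => (i = 0 ∧ Lo x m) ∨ ∃ j, i = j + 1 ∧ x.2.2 j m = true) k m

theorem cA_LM (x : X3) (h : AO x) : LM (cA x) := by
  refine ⟨?_, ?_, ?_, ?_, ?_⟩
  · intro m h1
    exact fl_irr h m ((cA_lt x m m).1 h1)
  · intro m n k
    rw [cA_lt, cA_lt, cA_lt]
    exact fl_tr h
  · intro m n hmn
    rw [cA_lt, cA_lt]
    exact fl_tot h hmn
  · intro m m' n n' h1 h2 h3
    unfold mo at h2 ⊢
    rw [cA_ac] at h2 ⊢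
    rw [cA_lt] at h1 h3
    obtain ⟨-, b, a, k1, k2, k3, k4, k5⟩ := h2
    refine ⟨rfl, b, a, k1, k2, k3, ?_, ?_⟩
    · rcases h1 with rfl | h1
      · exact k4
      · right
        rcases k4 with rfl | k4
        · exact h1
        · exact fl_tr h h1 k4
    · rcases h3 with rfl | h3
      · exact k5
      · right
        rcases k5 with rfl | k5
        · exact h3
        · exact fl_tr h k5 h3
  · intro k m n h1
    rw [cA_ac] at h1
    exact absurd h1.1 (Nat.succ_ne_zero k)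

/-- on pairs (upper, lower) the monotone relation is the original one -/
theorem fm_iff (h : AO x) {b a : ℕ} (hb : ¬ Lo x b) (ha : Lo x a) :
    Fm x b a ↔ x.2.1 b a = true := by
  constructor
  · rintro ⟨b', a', k1, k2, k3, k4, k5⟩
    have h1 : x.2.1 b a' = true := by
      rcases k4 with rfl | k4
      · exact k3
      · rcases k4 with ⟨c1, -, -⟩ | ⟨-, -, c3⟩ | ⟨c1, -, -⟩ | ⟨-, c2, -⟩
        · exact absurd c1 hb
        · exact h.left _ _ _ c3 k3
        · exact absurd c1 hb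
        · exact absurd c2 k1
    rcases k5 with rfl | k5
    · exact h1
    · rcases k5 with ⟨-, -, c3⟩ | ⟨c1, -, -⟩ | ⟨-, c2, -⟩ | ⟨c1, -, -⟩
      · exact h.right _ _ _ c3 h1
      · exact absurd k2 c1
      · exact absurd ha c2
      · exact absurd k2 c1
  · intro h1
    exact ⟨b, a, hb, ha, h1, Or.inl rfl, Or.inl rfl⟩

theorem cA_inj (x y : X3) (hx : AO x) (hy : AO y) (h : cA x = cA y) : x = y := by
  have hF : ∀ m n, Fl x m n ↔ Fl y m n := by
    intro m n
    rw [← cA_lt, ← cA_lt, h]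
  have hM : ∀ m n, Fm x m n ↔ Fm y m n := by
    intro m n
    have h1 := cA_ac x 0 m n
    have h2 := cA_ac y 0 m n
    rw [h] at h1
    have h3 := h1.symm.trans h2
    exact ⟨fun h4 => (h3.1 ⟨rfl, h4⟩).2, fun h4 => (h3.2 ⟨rfl, h4⟩).2⟩
  have hL : ∀ m, Lo x m ↔ Lo y m := by
    intro m
    have h1 := cA_co x 0 m
    have h2 := cA_co y 0 m
    rw [h] at h1
    have h3 := h1.symm.trans h2
    constructor
    · intro h4
      rcases h3.1 (Or.inl ⟨rfl, h4⟩) with h5 | ⟨j, h5, -⟩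
      · exact h5.2
      · omega
    · intro h4
      rcases h3.2 (Or.inl ⟨rfl, h4⟩) with h5 | ⟨j, h5, -⟩
      · exact h5.2
      · omega
  have e1 : ∀ (x y : X3), AO x → AO y → (∀ m n, Fl x m n ↔ Fl y m n) → (∀ m, Lo x m ↔ Lo y m) →
      ∀ m n, x.1 m n = true → y.1 m n = true := by
    intro x y hx hy hF hL m n h1
    by_cases hm : Lo x m <;> by_cases hn : Lo x n
    · rcases (hF m n).1 (Or.inl ⟨hm, hn, h1⟩) with h2 | ⟨h2, -, -⟩ | ⟨-, h2, -⟩ | ⟨h2, -, -⟩
      · exact h2.2.2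
      · exact absurd ((hL m).1 hm) h2
      · exact absurd ((hL n).1 hn) h2
      · exact absurd ((hL m).1 hm) h2
    · exact lowhigh hy ((hL m).1 hm) fun h2 => hn ((hL n).2 h2)
    · exact absurd (ndiag hx h1 hn) hm
    · rcases (hF n m).1 (Or.inr (Or.inl ⟨hn, hm, h1⟩)) with ⟨h2, -, -⟩ | h2 | ⟨h2, -, -⟩ |
        ⟨-, h2, -⟩
      · exact absurd ((hL n).2 h2) hn
      · exact h2.2.2
      · exact absurd ((hL n).2 h2) hn
      · exact absurd ((hL m).2 h2) hm
  have e2 : ∀ (x y : X3), AO x → AO y → (∀ m n, Fl x m n ↔ Fl y m n) →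
      (∀ m n, Fm x m n ↔ Fm y m n) → (∀ m, Lo x m ↔ Lo y m) →
      ∀ m n, x.2.1 m n = true → y.2.1 m n = true := by
    intro x y hx hy hF hM hL m n h1
    by_cases hm : Lo x m <;> by_cases hn : Lo x n
    · exact (bf h1 (ll hx hm hn)).elim
    · rcases (hF n m).1 (Or.inr (Or.inr (Or.inr ⟨hn, hm, h1⟩))) with ⟨h2, -, -⟩ | ⟨-, h2, -⟩ |
        ⟨h2, -, -⟩ | h2
      · exact absurd ((hL n).2 h2) hn
      · exact absurd ((hL m).1 hm) h2
      · exact absurd ((hL n).2 h2) hn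
      · exact h2.2.2
    · have h2 := (hM m n).1 ((fm_iff hx hm hn).2 h1)
      exact (fm_iff hy (fun h3 => hm ((hL m).2 h3)) ((hL n).1 hn)).1 h2
    · exact hh hy (fun h3 => hm ((hL m).2 h3)) fun h3 => hn ((hL n).2 h3)
  refine Prod.ext ?_ (Prod.ext ?_ ?_)
  · funext m n
    exact Bool.eq_iff_iff.2 ⟨e1 x y hx hy hF hL m n,
      e1 y x hy hx (fun m n => (hF m n).symm) (fun m => (hL m).symm) m n⟩
  · funext m n
    exact Bool.eq_iff_iff.2 ⟨e2 x y hx hy hF hM hL m n,
      e2 y x hy hx (fun m n => (hF m n).symm) (fun m n => (hM m n).symm)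
        (fun m => (hL m).symm) m n⟩
  · funext i m
    have h1 := cA_co x (i + 1) m
    have h2 := cA_co y (i + 1) m
    rw [h] at h1
    have h3 := h1.symm.trans h2
    apply Bool.eq_iff_iff.2
    constructor
    · intro h4
      rcases h3.1 (Or.inr ⟨i, rfl, h4⟩) with h5 | ⟨j, h5, h6⟩
      · omega
      · have : j = i := by omega
        rwa [this] at h6
    · intro h4
      rcases h3.2 (Or.inr ⟨i, rfl, h4⟩) with h5 | ⟨j, h5, h6⟩
      · omega
      · have : j = i := by omega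
        rwa [this] at h6

/-! ### Equivariance and measurability -/

theorem lo_act (σ : Equiv.Perm ℕ) (x : X3) (m : ℕ) : Lo (act3 σ x) (σ m) ↔ Lo x m := by
  unfold Lo act3
  simp

theorem fl_act (σ : Equiv.Perm ℕ) (x : X3) (m n : ℕ) :
    Fl (act3 σ x) (σ m) (σ n) ↔ Fl x m n := by
  unfold Fl Lo act3
  simp

theorem fm_act (σ : Equiv.Perm ℕ) (x : X3) (m n : ℕ) :
    Fm (act3 σ x) (σ m) (σ n) ↔ Fm x m n := by
  have hR : ∀ b a, (act3 σ x).2.1 (σ b) (σ a) = x.2.1 b a := by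
    intro b a
    unfold act3
    simp
  unfold Fm
  constructor
  · rintro ⟨b, a, h1, h2, h3, h4, h5⟩
    obtain ⟨b, rfl⟩ := σ.surjective b
    obtain ⟨a, rfl⟩ := σ.surjective a
    rw [lo_act] at h1 h2
    rw [hR] at h3
    rw [fl_act, σ.injective.eq_iff] at h4 h5
    exact ⟨b, a, h1, h2, h3, h4, h5⟩
  · rintro ⟨b, a, h1, h2, h3, h4, h5⟩
    refine ⟨σ b, σ a, ?_, ?_, ?_, ?_, ?_⟩
    · rwa [lo_act]
    · rwa [lo_act]
    · rwa [hR]
    · rwa [fl_act, σ.injective.eq_iff]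
    · rwa [fl_act, σ.injective.eq_iff]

theorem cA_act (σ : Equiv.Perm ℕ) (x : X3) : cA (act3 σ x) = act σ (cA x) := by
  have key : ∀ i (v : Fin (ar i) → ℕ), cA (act3 σ x) i (⇑σ ∘ v) = cA x i v := by
    intro i v
    unfold cA mk1
    apply mk_equiv
    · exact fl_act σ x
    · intro k m n
      rw [fm_act]
    · intro k m
      rw [lo_act]
      refine or_congr Iff.rfl (exists_congr fun j => and_congr Iff.rfl ?_)
      show x.2.2 j (σ.symm (σ m)) = true ↔ _
      rw [σ.symm_apply_apply]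
  funext i v
  have h1 := key i (⇑σ.symm ∘ v)
  have e : (⇑σ ∘ (⇑σ.symm ∘ v)) = v := by
    funext k
    exact σ.apply_symm_apply (v k)
  rw [e] at h1
  exact h1

theorem mA1 (m n : ℕ) (c : Bool) : Measurable fun x : X3 => x.1 m n = c :=
  m_val (fun x : X3 => x.1) measurable_fst m n c

theorem mA2 (m n : ℕ) (c : Bool) : Measurable fun x : X3 => x.2.1 m n = c :=
  m_val (fun x : X3 => x.2.1) (measurable_fst.comp measurable_snd) m n c

theorem mA3 (m n : ℕ) (c : Bool) : Measurable fun x : X3 => x.2.2 m n = c :=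
  m_val (fun x : X3 => x.2.2) (measurable_snd.comp measurable_snd) m n c

theorem mLo (m : ℕ) : Measurable fun x : X3 => Lo x m := mA2 m m false

theorem mFl (m n : ℕ) : Measurable fun x : X3 => Fl x m n := by
  unfold Fl
  exact Measurable.or ((mLo m).and ((mLo n).and (mA1 _ _ _)))
    (Measurable.or ((mLo m).not.and ((mLo n).not.and (mA1 _ _ _)))
    (Measurable.or ((mLo m).and ((mLo n).not.and (mA2 _ _ _)))
    ((mLo m).not.and ((mLo n).and (mA2 _ _ _)))))

theorem mFm (m n : ℕ) : Measurable fun x : X3 => Fm x m n := by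
  unfold Fm
  exact Measurable.exists fun b => Measurable.exists fun a =>
    (mLo b).not.and ((mLo a).and ((mA2 _ _ _).and
      ((measurable_const.or (mFl m b)).and (measurable_const.or (mFl a n)))))

theorem cA_meas : Measurable cA := by
  refine Pool.Agent.H566P.t_ACC.2.2.2.2.2.2.2.2.2.2.1 _ cA ?_ ?_ ?_
  · intro m n
    simp only [cA_lt]
    exact measurableSet_setOfPred.2 (mFl m n)
  · intro k m n
    simp only [cA_ac]
    exact measurableSet_setOfPred.2 (measurable_const.and (mFm m n))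
  · intro k m
    simp only [cA_co]
    exact measurableSet_setOfPred.2 ((measurable_const.and (mLo m)).or
      (Measurable.exists fun j => measurable_const.and (mA3 j m true)))

theorem pol_X3 : PolishSpace X3 := by
  have h2 : PolishSpace (ℕ → Bool) := Pool.Agent.H533R2.VS.kis_pB ℕ
  have h3 : PolishSpace (ℕ → ℕ → Bool) := by
    have k1 : SecondCountableTopology (ℕ → ℕ → Bool) := inferInstance
    have k2 : TopologicalSpace.SeparableSpace (ℕ → ℕ → Bool) := inferInstance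
    have k3 : TopologicalSpace.IsCompletelyMetrizableSpace (ℕ → ℕ → Bool) := inferInstance
    infer_instance
  have k1 : SecondCountableTopology X3 := inferInstance
  have k2 : TopologicalSpace.SeparableSpace X3 := inferInstance
  have k3 : TopologicalSpace.IsCompletelyMetrizableSpace X3 := inferInstance
  infer_instance

/-- The dichotomy for linear orders with a relation increasing in both coordinates. -/
theorem dch_anti : Dch act3 AO := by
  have hP := pol_X3
  have hP2 : PolishSpace R2 := Pool.Agent.H533R2.VS.kis_pRS ar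
  have hne : Nonempty X3 := ⟨(fun _ _ => false, fun _ _ => false, fun _ _ => false)⟩
  have hb0 : BorelSpace (ℕ → ℕ → Bool) := inferInstance
  have hb1 : BorelSpace ((ℕ → ℕ → Bool) × (ℕ → ℕ → Bool)) := inferInstance
  have hb2 : SecondCountableTopology ((ℕ → ℕ → Bool) × (ℕ → ℕ → Bool)) := inferInstance
  have hbo : BorelSpace X3 := Prod.borelSpace
  have hbo2 : BorelSpace R2 := inferInstance
  exact dch_transfer act3 act AO LM cA cA_meas cA_inj cA_act act_symm cA_LM
    (dch_of_vc _ Pool.Agent.H566M.vcLM)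

end Pool.Agent.H31R3.AT
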